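import Pool.Agent.Helper27.EX.RDefs
import Pool.Agent.Helper28.EX.ST

/-!
# MP_2857a5_co : module HP, the host for trees consisting mainly of directed paths
-/

set_option autoImplicit false

open Finset
open scoped Classical

namespace OT

noncomputable section

/-- The statement of the module ST. -/
def hp_StStars : Prop := ∀ (d : ℕ) (y₀ : ℝ), 0 < y₀ → ∀ (V : Type) [Fintype V] (D : V → V → Prop),
    (∀ v, ¬ D v v) → ∀ (s : Bool) (X Y : Finset V) (Λ β : ℝ), 0 < β →
    y₀ * (Fintype.card V : ℝ) ≤ (Y.card : ℝ) → 4 * d ≤ y₀ * Λ →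
    (∀ y ∈ Y, Λ ≤ ((X ∩ adjN D (!s) y).card : ℝ)) →
    (∀ u ∈ X, ((Y ∩ adjN D s u).card : ℝ) ≤ β * (Fintype.card V : ℝ)) →
    0 < Fintype.card V →
    ∃ (S : Finset V) (lv : V → Fin d → V), S ⊆ X ∧ Stars D s d S Y lv ∧
      (y₀ * Λ ≤ 4 * (d + 1) * β * (S.card : ℝ) ∨
        y₀ * (Fintype.card V : ℝ) ≤ 2 * (d + 1) * (S.card : ℝ))

variable {V : Type} [Fintype V]

theorem hp_adjN_rev (D : V → V → Prop) (s : Bool) (u : V) : adjN (rev D) s u = adjN D (!s) u := by
  ext v
  cases s <;> simp [adjN, Adj, rev]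

/-- number of vertices with a label -/
def hp_ct (f : V → Bool) : ℕ := (univ.filter fun u => f u = true).card

theorem hp_ct_not (f : V → Bool) : hp_ct (fun u => !f u) + hp_ct f = Fintype.card V := by
  unfold hp_ct
  rw [← Finset.card_univ, ← Finset.card_filter_add_card_filter_not (s := univ) (fun u => f u = true)]
  rw [add_comm]
  congr 2
  ext u
  simp

theorem hp_split {D : V → V → Prop} {s : Bool} {d : ℕ} {S Y : Finset V}
    {lv : V → Fin d → V} (h : Stars D s d S Y lv) (f : V → Bool) :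
    ∃ (b : Bool) (S₁ : Finset V), S₁ ⊆ S ∧ (∀ u ∈ S₁, f u = b) ∧ Stars D s d S₁ Y lv ∧
      S.card ≤ 2 * S₁.card := by
  have hsub : ∀ S₁ : Finset V, S₁ ⊆ S → Stars D s d S₁ Y lv := fun S₁ hS₁ =>
    ⟨fun u hu j => ⟨(h.adj u (hS₁ hu) j).1, (h.adj u (hS₁ hu) j).2.1,
      fun hx => (h.adj u (hS₁ hu) j).2.2 (hS₁ hx)⟩,
      fun u hu u' hu' j j' e => h.inj u (hS₁ hu) u' (hS₁ hu') j j' e⟩
  have hc := Finset.card_filter_add_card_filter_not (s := S) (fun u => f u = true)
  rcases le_total (S.filter fun u => ¬ f u = true).card (S.filter fun u => f u = true).card with h1 | h1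
  · refine ⟨true, S.filter fun u => f u = true, filter_subset _ _, ?_, hsub _ (filter_subset _ _), by omega⟩
    intro u hu
    exact (mem_filter.1 hu).2
  · refine ⟨false, S.filter fun u => ¬ f u = true, filter_subset _ _, ?_, hsub _ (filter_subset _ _), by omega⟩
    intro u hu
    have := (mem_filter.1 hu).2
    simpa using this

/-- The degree into a part. -/
theorem hp_inter (N X : Finset V) : (N.card : ℝ) + (X.card : ℝ) - (Fintype.card V : ℝ) ≤
    ((X ∩ N).card : ℝ) := by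
  have h1 : (X ∪ N).card + (X ∩ N).card = X.card + N.card := card_union_add_card_inter X N
  have h2 : (X ∪ N).card ≤ Fintype.card V := card_le_univ _
  have h3 : X.card + N.card ≤ Fintype.card V + (X ∩ N).card := by omega
  have h4 : (X.card : ℝ) + (N.card : ℝ) ≤ (Fintype.card V : ℝ) + ((X ∩ N).card : ℝ) := by
    exact_mod_cast h3
  linarith

/-- initial labels -/
structure hp_Ini (D : V → V → Prop) (B C : Finset V) (o i : V → Bool) (κ : ℝ) : Prop where
  nb : NearBip D B C κ
  labB : ∀ b ∈ B, o b = true ∧ i b = false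
  labC : ∀ c ∈ C, o c = false ∧ i c = true
  out : ∀ u, (1 / 5 : ℝ) * (Fintype.card V : ℝ) ≤
    (((if o u = true then C else B) ∩ adjN D true u).card : ℝ)
  inn : ∀ u, (1 / 5 : ℝ) * (Fintype.card V : ℝ) ≤
    (((if i u = true then B else C) ∩ adjN D false u).card : ℝ)

theorem hp_nb_swap {D : V → V → Prop} {B C : Finset V} {κ : ℝ} (h : NearBip D B C κ) :
    NearBip D C B κ := ⟨h.disj.symm, h.cardC, h.cardB, h.missC, h.missB⟩

theorem hp_ini_swap {D : V → V → Prop} {B C : Finset V} {o i : V → Bool} {κ : ℝ}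
    (h : hp_Ini D B C o i κ) : hp_Ini D C B (fun u => !o u) (fun u => !i u) κ where
  nb := hp_nb_swap h.nb
  labB := fun b hb => by have := h.labC b hb; simp [this.1, this.2]
  labC := fun b hb => by have := h.labB b hb; simp [this.1, this.2]
  out := fun u => by
    have := h.out u
    cases ho : o u <;> simpa [ho] using this
  inn := fun u => by
    have := h.inn u
    cases ho : i u <;> simpa [ho] using this

theorem hp_big {D : V → V → Prop} {B C : Finset V} {κ : ℝ} (hκ : κ ≤ 1 / 20)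
    (nb : NearBip D B C κ) (s : Bool) (b : V) (hb : b ∈ B) :
    (1 / 5 : ℝ) * (Fintype.card V : ℝ) ≤ ((C ∩ adjN D s b).card : ℝ) := by
  have h1 := nb.missB s b hb
  have h2 : ((C ∩ adjN D s b).card : ℝ) + ((C \ adjN D s b).card : ℝ) = (C.card : ℝ) := by
    exact_mod_cast card_inter_add_card_sdiff C (adjN D s b)
  have h3 := nb.cardC
  have hn : (0 : ℝ) ≤ (Fintype.card V : ℝ) := Nat.cast_nonneg _
  nlinarith

theorem hp_dec {D : V → V → Prop} {B C : Finset V} {κ L : ℝ} (hL : 0 ≤ L) (hκ : κ ≤ 1 / 20)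
    (nb : NearBip D B C κ) (sd : SemiDeg D L) (s : Bool) (u : V)
    (h : ¬ (1 / 5 : ℝ) * (Fintype.card V : ℝ) ≤ ((C ∩ adjN D s u).card : ℝ)) :
    (1 / 5 : ℝ) * (Fintype.card V : ℝ) ≤ ((B ∩ adjN D s u).card : ℝ) := by
  have h1 : adjN D s u ⊆ ((B ∩ adjN D s u) ∪ (C ∩ adjN D s u)) ∪ (univ \ (B ∪ C)) := by
    intro x hx
    simp only [mem_union, mem_inter, mem_sdiff, mem_univ, true_and]
    tauto
  have h2 : (adjN D s u).card ≤ (B ∩ adjN D s u).card + (C ∩ adjN D s u).card +
      (univ \ (B ∪ C)).card :=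
    (card_le_card h1).trans ((card_union_le _ _).trans (Nat.add_le_add_right (card_union_le _ _) _))
  have h3 : (univ \ (B ∪ C)).card + (B.card + C.card) = Fintype.card V := by
    rw [← card_union_of_disjoint nb.disj, ← Finset.card_univ]
    exact card_sdiff_add_card_eq_card (subset_univ _)
  have h2' : ((adjN D s u).card : ℝ) ≤ ((B ∩ adjN D s u).card : ℝ) + ((C ∩ adjN D s u).card : ℝ) +
      ((univ \ (B ∪ C)).card : ℝ) := by exact_mod_cast h2
  have h3' : ((univ \ (B ∪ C)).card : ℝ) + ((B.card : ℝ) + (C.card : ℝ)) = (Fintype.card V : ℝ) := by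
    exact_mod_cast h3
  have h4 := sd.deg s u
  have h5 := nb.cardB
  have h6 := nb.cardC
  have hn : (0 : ℝ) ≤ (Fintype.card V : ℝ) := Nat.cast_nonneg _
  push Not at h
  nlinarith

theorem hp_ini {D : V → V → Prop} {B C : Finset V} {κ L : ℝ} (hL : 0 ≤ L) (hκ : κ ≤ 1 / 20)
    (nb : NearBip D B C κ) (sd : SemiDeg D L) : ∃ o i : V → Bool, hp_Ini D B C o i κ := by
  refine ⟨fun u => if u ∈ B then true else if u ∈ C then false else
      decide ((1 / 5 : ℝ) * (Fintype.card V : ℝ) ≤ ((C ∩ adjN D true u).card : ℝ)),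
    fun u => if u ∈ B then false else if u ∈ C then true else
      decide ((1 / 5 : ℝ) * (Fintype.card V : ℝ) ≤ ((B ∩ adjN D false u).card : ℝ)), nb, ?_, ?_, ?_, ?_⟩
  · intro b hb
    simp [hb]
  · intro c hc
    have : c ∉ B := fun hb => (disjoint_left.1 nb.disj) hb hc
    simp [hc, this]
  · intro u
    by_cases hb : u ∈ B
    · simpa [hb] using hp_big hκ nb true u hb
    · by_cases hc : u ∈ C
      · simpa [hb, hc] using hp_big hκ (hp_nb_swap nb) true u hc
      · by_cases hd : (1 / 5 : ℝ) * (Fintype.card V : ℝ) ≤ ((C ∩ adjN D true u).card : ℝ)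
        · simp only [hb, hc, if_false, hd, decide_true, if_true]
        · simp only [hb, hc, if_false, hd, decide_false, Bool.false_eq_true]
          exact hp_dec hL hκ nb sd true u hd
  · intro u
    by_cases hb : u ∈ B
    · simpa [hb] using hp_big hκ nb false u hb
    · by_cases hc : u ∈ C
      · simpa [hb, hc] using hp_big hκ (hp_nb_swap nb) false u hc
      · by_cases hd : (1 / 5 : ℝ) * (Fintype.card V : ℝ) ≤ ((B ∩ adjN D false u).card : ℝ)
        · simp only [hb, hc, if_false, hd, decide_true, if_true]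
        · simp only [hb, hc, if_false, hd, decide_false, Bool.false_eq_true]
          exact hp_dec hL hκ (hp_nb_swap nb) sd false u hd

/-- The data before the choice of the stars. -/
structure hp_Pre (D : V → V → Prop) (B C : Finset V) (o i : V → Bool) (γ κ : ℝ) : Prop where
  nb : NearBip D B C κ
  labB : ∀ b ∈ B, o b = true ∧ i b = false
  labC : ∀ c ∈ C, o c = false ∧ i c = true
  out : ∀ u, γ * (Fintype.card V : ℝ) ≤
    (((if o u = true then C else B) ∩ adjN D true u).card : ℝ)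
  inn : ∀ u, γ * (Fintype.card V : ℝ) ≤
    (((if i u = true then B else C) ∩ adjN D false u).card : ℝ)
  r0 : hp_ct i ≤ hp_ct o
  r1 : (hp_ct o : ℝ) ≤ hp_ct i + κ * (Fintype.card V : ℝ)
  r2 : (hp_ct o : ℝ) ≤ hp_ct i + γ * (Fintype.card V : ℝ)
  cB : (1 / 3 : ℝ) * (Fintype.card V : ℝ) ≤ (B.card : ℝ)
  cC : (1 / 3 : ℝ) * (Fintype.card V : ℝ) ≤ (C.card : ℝ)
  alt : hp_ct o = hp_ct i ∨
    ((∀ u, o u = true → ((B ∩ adjN D true u).card : ℝ) ≤ 2 * γ * (Fintype.card V : ℝ)) ∧
      ∀ u, i u = false → ((B ∩ adjN D false u).card : ℝ) ≤ 2 * γ * (Fintype.card V : ℝ))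

theorem hp_rev {D : V → V → Prop} {B C : Finset V} {o i : V → Bool} {γ κ : ℝ}
    (h : hp_Pre D B C o i γ κ) : hp_Pre (rev D) B C (fun u => !i u) (fun u => !o u) γ κ := by
  have ho := hp_ct_not o
  have hi := hp_ct_not i
  have h0 := h.r0
  have ho' : (hp_ct (fun u => !o u) : ℝ) + hp_ct o = Fintype.card V := by exact_mod_cast ho
  have hi' : (hp_ct (fun u => !i u) : ℝ) + hp_ct i = Fintype.card V := by exact_mod_cast hi
  refine ⟨⟨h.nb.disj, h.nb.cardB, h.nb.cardC, ?_, ?_⟩, ?_, ?_, ?_, ?_, by omega, ?_, ?_, h.cB, h.cC, ?_⟩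
  · intro s b hb; rw [hp_adjN_rev]; exact h.nb.missB _ b hb
  · intro s b hb; rw [hp_adjN_rev]; exact h.nb.missC _ b hb
  · intro b hb; have := h.labB b hb; simp [this.1, this.2]
  · intro b hb; have := h.labC b hb; simp [this.1, this.2]
  · intro u
    rw [hp_adjN_rev]
    have := h.inn u
    cases ho : i u <;> simpa [ho] using this
  · intro u
    rw [hp_adjN_rev]
    have := h.out u
    cases ho : o u <;> simpa [ho] using this
  · have := h.r1; linarith
  · have := h.r2; linarith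
  · rcases h.alt with h1 | ⟨h1, h2⟩
    · left; omega
    · right
      refine ⟨fun u hu => ?_, fun u hu => ?_⟩
      · rw [hp_adjN_rev]; exact h2 u (by simpa using hu)
      · rw [hp_adjN_rev]; exact h1 u (by simpa using hu)

theorem hp_choose {W : Type} (P Q : Finset W) (r : ℕ) : ∃ P' Q' : Finset W, P' ⊆ P ∧ Q' ⊆ Q ∧
    P'.card + Q'.card ≤ r ∧ (P'.card + Q'.card = r ∨ (P' = P ∧ Q' = Q)) := by
  by_cases h1 : P.card + Q.card ≤ r
  · exact ⟨P, Q, subset_rfl, subset_rfl, h1, Or.inr ⟨rfl, rfl⟩⟩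
  · by_cases h2 : r ≤ P.card
    · obtain ⟨P', hP', hc⟩ := exists_subset_card_eq h2
      exact ⟨P', ∅, hP', empty_subset _, by simp [hc], Or.inl (by simp [hc])⟩
    · have h3 : r - P.card ≤ Q.card := by omega
      obtain ⟨Q', hQ', hc⟩ := exists_subset_card_eq h3
      exact ⟨P, Q', subset_rfl, hQ', by omega, Or.inl (by omega)⟩

omit [Fintype V] in
theorem hp_del (B Z N : Finset V) :
    ((B ∩ N).card : ℝ) ≤ (((B \ Z) ∩ N).card : ℝ) + (Z.card : ℝ) := by
  have h : (B ∩ N) ⊆ ((B \ Z) ∩ N) ∪ Z := by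
    intro x hx
    simp only [mem_union, mem_inter, mem_sdiff] at hx ⊢
    tauto
  exact_mod_cast (card_le_card h).trans (card_union_le _ _)

theorem hp_pre {D : V → V → Prop} {B C : Finset V} {o i : V → Bool} {κ₀ γ κ : ℝ} (hκ₀ : 0 ≤ κ₀)
    (hγ0 : 0 < γ) (hγ : γ ≤ 1 / 20) (h1 : 4 * κ₀ ≤ γ) (h2 : 5 * κ₀ ≤ κ)
    (h : hp_Ini D B C o i κ₀) (hr : hp_ct i ≤ hp_ct o) :
    ∃ (B' : Finset V) (o' i' : V → Bool), hp_Pre D B' C o' i' γ κ := by
  have hn : (0 : ℝ) ≤ (Fintype.card V : ℝ) := Nat.cast_nonneg _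
  set n : ℝ := (Fintype.card V : ℝ) with hndef
  -- the difference
  have hoC : hp_ct o + C.card ≤ Fintype.card V := by
    unfold hp_ct
    rw [← card_union_of_disjoint]
    · exact card_le_univ _
    · rw [disjoint_left]
      intro x hx hC
      have := (h.labC x hC).1
      rw [mem_filter] at hx
      rw [this] at hx
      exact absurd hx.2 (by simp)
  have hiC : C.card ≤ hp_ct i := by
    unfold hp_ct
    apply card_le_card
    intro x hx
    rw [mem_filter]
    exact ⟨mem_univ _, (h.labC x hx).2⟩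
  have hoC' : (hp_ct o : ℝ) + C.card ≤ n := by rw [hndef]; exact_mod_cast hoC
  have hiC' : (C.card : ℝ) ≤ hp_ct i := by exact_mod_cast hiC
  have hcC := h.nb.cardC
  have hcB := h.nb.cardB
  rw [← hndef] at hcC hcB
  set P := univ.filter (fun u => o u = true ∧ 2 * γ * n ≤ ((B ∩ adjN D true u).card : ℝ)) with hP
  set Q := univ.filter (fun u => i u = false ∧ 2 * γ * n ≤ ((B ∩ adjN D false u).card : ℝ)) with hQ
  obtain ⟨P', Q', hPP, hQQ, hle, halt⟩ := hp_choose P Q (hp_ct o - hp_ct i)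
  have hr' : ((P'.card : ℝ) + Q'.card) ≤ 2 * κ₀ * n := by
    have h3 : P'.card + Q'.card + hp_ct i ≤ hp_ct o := by omega
    have h4 : (P'.card : ℝ) + Q'.card + hp_ct i ≤ hp_ct o := by exact_mod_cast h3
    linarith
  have hPo : ∀ u ∈ P', o u = true ∧ 2 * γ * n ≤ ((B ∩ adjN D true u).card : ℝ) := fun u hu =>
    (mem_filter.1 (hPP hu)).2
  have hQi : ∀ u ∈ Q', i u = false ∧ 2 * γ * n ≤ ((B ∩ adjN D false u).card : ℝ) := fun u hu =>
    (mem_filter.1 (hQQ hu)).2
  set Z := P' ∪ Q' with hZ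
  have hZc : (Z.card : ℝ) ≤ 2 * κ₀ * n := by
    have : Z.card ≤ P'.card + Q'.card := card_union_le _ _
    have : (Z.card : ℝ) ≤ (P'.card : ℝ) + Q'.card := by exact_mod_cast this
    linarith
  have hcto : hp_ct (fun u => o u && decide (u ∉ P')) + P'.card = hp_ct o := by
    unfold hp_ct
    rw [← card_union_of_disjoint]
    · congr 1
      ext u
      simp only [mem_union, mem_filter, mem_univ, true_and, Bool.and_eq_true, decide_eq_true_eq]
      constructor
      · rintro (h1 | h1)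
        · exact h1.1
        · exact (hPo u h1).1
      · intro h1
        by_cases hu : u ∈ P'
        · exact Or.inr hu
        · exact Or.inl ⟨h1, hu⟩
    · rw [disjoint_left]
      intro u hu hu'
      simp [hu'] at hu
  have hcti : hp_ct (fun u => i u || decide (u ∈ Q')) = hp_ct i + Q'.card := by
    unfold hp_ct
    rw [← card_union_of_disjoint]
    · congr 1
      ext u
      simp
    · rw [disjoint_left]
      intro u hu hu'
      have := (hQi u hu').1
      rw [mem_filter, this] at hu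
      exact absurd hu.2 (by simp)
  have hcto' : (hp_ct (fun u => o u && decide (u ∉ P')) : ℝ) + P'.card = hp_ct o := by
    exact_mod_cast hcto
  have hcti' : (hp_ct (fun u => i u || decide (u ∈ Q')) : ℝ) = hp_ct i + Q'.card := by
    exact_mod_cast hcti
  have hPpos : (0 : ℝ) ≤ (P'.card : ℝ) := Nat.cast_nonneg _
  have hQpos : (0 : ℝ) ≤ (Q'.card : ℝ) := Nat.cast_nonneg _
  have hBc : (B.card : ℝ) ≤ ((B \ Z).card : ℝ) + Z.card := by
    have := hp_del B Z univ
    simpa using this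
  have e1 : κ₀ * n ≤ 1 / 80 * n := by nlinarith
  have e2 : 4 * (κ₀ * n) ≤ γ * n := by nlinarith
  have e3 : 5 * (κ₀ * n) ≤ κ * n := by nlinarith
  have e4 : γ * n ≤ 1 / 20 * n := by nlinarith
  have e5 : 0 ≤ κ₀ * n := by positivity
  refine ⟨B \ Z, fun u => o u && decide (u ∉ P'), fun u => i u || decide (u ∈ Q'),
    ⟨disjoint_of_subset_left sdiff_subset h.nb.disj, ?_, ?_, ?_, ?_⟩, ?_, ?_, ?_, ?_, ?_, ?_, ?_,
    ?_, ?_, ?_⟩
  · rw [← hndef]; nlinarith
  · rw [← hndef]; nlinarith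
  · intro s b hb
    have := h.nb.missB s b (mem_sdiff.1 hb).1
    rw [← hndef] at this ⊢
    linarith
  · intro s c hc
    have h3 := h.nb.missC s c hc
    have h4 : ((((B \ Z) \ adjN D s c)).card : ℝ) ≤ ((B \ adjN D s c).card : ℝ) := by
      exact_mod_cast card_le_card (sdiff_subset_sdiff sdiff_subset subset_rfl)
    rw [← hndef] at h3 ⊢
    linarith
  · intro b hb
    rw [mem_sdiff, hZ, mem_union, not_or] at hb
    have := h.labB b hb.1
    simp [this.1, this.2, hb.2.1, hb.2.2]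
  · intro c hc
    have := h.labC c hc
    simp [this.1, this.2]
  · intro u
    rw [← hndef]
    by_cases hu : u ∈ P'
    · have h3 := (hPo u hu).2
      have h4 := hp_del B Z (adjN D true u)
      simp only [hu, not_true_eq_false, decide_false, Bool.and_false, Bool.false_eq_true, if_false]
      nlinarith
    · have h3 := h.out u
      rw [← hndef] at h3
      cases ho : o u
      · have h4 := hp_del B Z (adjN D true u)
        simp only [ho, Bool.false_eq_true, if_false] at h3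
        simp only [Bool.false_and, Bool.false_eq_true, if_false]
        nlinarith
      · simp only [ho, if_true] at h3
        simp only [hu, not_false_eq_true, decide_true, Bool.and_true, if_true]
        nlinarith
  · intro u
    rw [← hndef]
    by_cases hu : u ∈ Q'
    · have h3 := (hQi u hu).2
      have h4 := hp_del B Z (adjN D false u)
      simp only [hu, decide_true, Bool.or_true, if_true]
      nlinarith
    · have h3 := h.inn u
      rw [← hndef] at h3
      cases ho : i u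
      · simp only [ho, Bool.false_eq_true, if_false] at h3
        simp only [hu, decide_false, Bool.or_false, Bool.false_eq_true, if_false]
        nlinarith
      · have h4 := hp_del B Z (adjN D false u)
        simp only [ho, if_true] at h3
        simp only [Bool.true_or, if_true]
        nlinarith
  · omega
  · rw [← hndef]; linarith
  · rw [← hndef]; linarith
  · rw [← hndef]; nlinarith
  · rw [← hndef]; nlinarith
  · rcases halt with ha | ⟨ha, hb⟩
    · left; omega
    · right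
      refine ⟨fun u hu => ?_, fun u hu => ?_⟩
      · rw [← hndef]
        simp only [Bool.and_eq_true, decide_eq_true_eq] at hu
        have h3 : ¬ 2 * γ * n ≤ ((B ∩ adjN D true u).card : ℝ) := by
          intro hx
          apply hu.2
          rw [ha, hP, mem_filter]
          exact ⟨mem_univ _, hu.1, hx⟩
        have h4 : (((B \ Z) ∩ adjN D true u).card : ℝ) ≤ ((B ∩ adjN D true u).card : ℝ) := by
          exact_mod_cast card_le_card (inter_subset_inter sdiff_subset subset_rfl)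
        linarith [not_le.1 h3]
      · rw [← hndef]
        simp only [Bool.or_eq_false_iff, decide_eq_false_iff_not] at hu
        have h3 : ¬ 2 * γ * n ≤ ((B ∩ adjN D false u).card : ℝ) := by
          intro hx
          apply hu.2
          rw [hb, hQ, mem_filter]
          exact ⟨mem_univ _, hu.1, hx⟩
        have h4 : (((B \ Z) ∩ adjN D false u).card : ℝ) ≤ ((B ∩ adjN D false u).card : ℝ) := by
          exact_mod_cast card_le_card (inter_subset_inter sdiff_subset subset_rfl)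
        linarith [not_le.1 h3]

theorem hp_fin (hst : hp_StStars) {Δ : ℕ} {D : V → V → Prop} {B C : Finset V} {o i : V → Bool}
    {γ κ L : ℝ} {k : ℕ} (hγ : γ = 1 / (96 * ((Δ : ℝ) + 2))) (h : hp_Pre D B C o i γ κ)
    (sd : SemiDeg D L) (hoi : Fintype.card V ≤ hp_ct o + hp_ct i) (hV : 0 < Fintype.card V)
    (hL : 96 * ((Δ : ℝ) + 2) * k + k + 12 * (Δ + 1) ≤ L)
    (hn : 72 * ((Δ : ℝ) + 2) * k ≤ Fintype.card V) :
    ∃ (τ ω : Bool) (S S' : Finset V) (lv lv' : V → Fin (Δ + 1) → V),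
      HostP D Δ B C o i τ ω S S' lv lv' γ κ k := by
  have hΔ : (0 : ℝ) ≤ (Δ : ℝ) := Nat.cast_nonneg _
  have hk : (0 : ℝ) ≤ (k : ℝ) := Nat.cast_nonneg _
  have hγ0 : 0 < γ := by rw [hγ]; positivity
  have hγm : 96 * ((Δ : ℝ) + 2) * γ = 1 := by rw [hγ]; field_simp
  have hr0 : (hp_ct i : ℝ) ≤ hp_ct o := by exact_mod_cast h.r0
  have hoi' : (Fintype.card V : ℝ) ≤ hp_ct o + hp_ct i := by exact_mod_cast hoi
  have hr2 := h.r2
  have hn0 : (0 : ℝ) ≤ (Fintype.card V : ℝ) := Nat.cast_nonneg _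
  have hδk : 0 ≤ ((Δ : ℝ) + 2) * k := by positivity
  have hXo : ((univ.filter fun u => o u = true).card : ℝ) = hp_ct o := rfl
  have hXi : ((univ.filter fun u => i u = true).card : ℝ) = hp_ct i := rfl
  -- the first family
  have key1 : ∃ (b : Bool) (S : Finset V) (lv : V → Fin (Δ + 1) → V),
      (∀ u ∈ S, o u = true ∧ i u = b) ∧ Stars D true (Δ + 1) S B lv ∧
      (hp_ct o : ℝ) + 3 * k ≤ hp_ct i + S.card := by
    have hin : ∀ y ∈ B, L + (hp_ct o - (Fintype.card V : ℝ) / 2) ≤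
        (((univ.filter fun u => o u = true) ∩ adjN D (!true) y).card : ℝ) := by
      intro y _
      have h1 := hp_inter (adjN D (!true) y) (univ.filter fun u => o u = true)
      have h2 := sd.deg (!true) y
      rw [hXo] at h1
      linarith
    have hd : (4 : ℝ) * ((Δ + 1 : ℕ) : ℝ) ≤ 1 / 3 * (L + (hp_ct o - (Fintype.card V : ℝ) / 2)) := by
      push_cast
      nlinarith
    by_cases hr : hp_ct o = hp_ct i
    · have hout : ∀ u ∈ (univ.filter fun u => o u = true), ((B ∩ adjN D true u).card : ℝ) ≤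
          1 * (Fintype.card V : ℝ) := by
        intro u _
        rw [one_mul]
        exact_mod_cast card_le_univ _
      obtain ⟨S₀, lv, hS₀, hst₀, hc⟩ := hst (Δ + 1) (1 / 3) (by norm_num) V D sd.irr true
        (univ.filter fun u => o u = true) B (L + (hp_ct o - (Fintype.card V : ℝ) / 2)) 1 one_pos
        h.cB hd hin hout hV
      obtain ⟨b, S, hS, hb, hst₁, hcc⟩ := hp_split hst₀ i
      refine ⟨b, S, lv, fun u hu => ⟨(mem_filter.1 (hS₀ (hS hu))).2, hb u hu⟩, hst₁, ?_⟩
      have hcc' : (S₀.card : ℝ) ≤ 2 * S.card := by exact_mod_cast hcc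
      have hr' : (hp_ct o : ℝ) = hp_ct i := by exact_mod_cast hr
      push_cast at hc
      have hgoal : 3 * (k : ℝ) ≤ S.card := by
        rcases hc with hc | hc
        · have h5 : L ≤ 24 * ((Δ : ℝ) + 2) * S.card := by nlinarith
          have h6 : ((Δ : ℝ) + 2) * (96 * k) ≤ ((Δ : ℝ) + 2) * (24 * S.card) := by nlinarith
          have h7 := le_of_mul_le_mul_left h6 (by positivity)
          linarith
        · have h5 : (Fintype.card V : ℝ) ≤ 12 * ((Δ : ℝ) + 2) * S.card := by nlinarith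
          have h6 : ((Δ : ℝ) + 2) * (72 * k) ≤ ((Δ : ℝ) + 2) * (12 * S.card) := by nlinarith
          have h7 := le_of_mul_le_mul_left h6 (by positivity)
          linarith
      linarith
    · have halt := (h.alt.resolve_left hr).1
      have hout : ∀ u ∈ (univ.filter fun u => o u = true), ((B ∩ adjN D true u).card : ℝ) ≤
          (2 * γ) * (Fintype.card V : ℝ) := by
        intro u hu
        exact halt u (mem_filter.1 hu).2
      obtain ⟨S₀, lv, hS₀, hst₀, hc⟩ := hst (Δ + 1) (1 / 3) (by norm_num) V D sd.irr true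
        (univ.filter fun u => o u = true) B (L + (hp_ct o - (Fintype.card V : ℝ) / 2)) (2 * γ)
        (by positivity) h.cB hd hin hout hV
      obtain ⟨b, S, hS, hb, hst₁, hcc⟩ := hp_split hst₀ i
      refine ⟨b, S, lv, fun u hu => ⟨(mem_filter.1 (hS₀ (hS hu))).2, hb u hu⟩, hst₁, ?_⟩
      have hcc' : (S₀.card : ℝ) ≤ 2 * S.card := by exact_mod_cast hcc
      push_cast at hc
      rcases hc with hc | hc
      · have h5 : 4 * ((Δ : ℝ) + 1 + 1) * (2 * γ) * S₀.card = 1 / 12 * S₀.card := by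
          have : 4 * ((Δ : ℝ) + 1 + 1) * (2 * γ) = 1 / 12 := by nlinarith
          rw [this]
        rw [h5] at hc
        nlinarith
      · have h5 : (Fintype.card V : ℝ) ≤ 12 * ((Δ : ℝ) + 2) * S.card := by nlinarith
        have h8 : 96 * ((Δ : ℝ) + 2) * ((hp_ct o : ℝ) - hp_ct i) ≤ Fintype.card V := by
          have h9 : (hp_ct o : ℝ) - hp_ct i ≤ γ * Fintype.card V := by linarith
          have h10 : 96 * ((Δ : ℝ) + 2) * ((hp_ct o : ℝ) - hp_ct i) ≤
              96 * ((Δ : ℝ) + 2) * (γ * Fintype.card V) :=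
            mul_le_mul_of_nonneg_left h9 (by positivity)
          have h11 : 96 * ((Δ : ℝ) + 2) * (γ * Fintype.card V) = Fintype.card V := by
            rw [← mul_assoc, hγm, one_mul]
          linarith
        have h6 : (96 * ((Δ : ℝ) + 2)) * (((hp_ct o : ℝ) - hp_ct i) + 3 * k) ≤
            (96 * ((Δ : ℝ) + 2)) * S.card := by
          nlinarith
        have h7 := le_of_mul_le_mul_left h6 (by positivity)
        linarith
  -- the second family
  have key2 : ∃ (b : Bool) (S : Finset V) (lv : V → Fin (Δ + 1) → V),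
      (∀ u ∈ S, i u = true ∧ o u = b) ∧ Stars D false (Δ + 1) S C lv ∧
      ((hp_ct o : ℝ) ≤ hp_ct i + 2 * k → 4 * (k : ℝ) ≤ S.card) := by
    by_cases hr : (hp_ct o : ℝ) ≤ hp_ct i + 2 * k
    · have hin : ∀ y ∈ C, L - k ≤
          (((univ.filter fun u => i u = true) ∩ adjN D (!false) y).card : ℝ) := by
        intro y _
        have h1 := hp_inter (adjN D (!false) y) (univ.filter fun u => i u = true)
        have h2 := sd.deg (!false) y
        rw [hXi] at h1
        linarith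
      have hd : (4 : ℝ) * ((Δ + 1 : ℕ) : ℝ) ≤ 1 / 3 * (L - k) := by
        push_cast
        nlinarith
      have hout : ∀ u ∈ (univ.filter fun u => i u = true), ((C ∩ adjN D false u).card : ℝ) ≤
          1 * (Fintype.card V : ℝ) := by
        intro u _
        rw [one_mul]
        exact_mod_cast card_le_univ _
      obtain ⟨S₀, lv, hS₀, hst₀, hc⟩ := hst (Δ + 1) (1 / 3) (by norm_num) V D sd.irr false
        (univ.filter fun u => i u = true) C (L - k) 1 one_pos h.cC hd hin hout hV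
      obtain ⟨b, S, hS, hb, hst₁, hcc⟩ := hp_split hst₀ o
      refine ⟨b, S, lv, fun u hu => ⟨(mem_filter.1 (hS₀ (hS hu))).2, hb u hu⟩, hst₁, fun _ => ?_⟩
      have hcc' : (S₀.card : ℝ) ≤ 2 * S.card := by exact_mod_cast hcc
      push_cast at hc
      rcases hc with hc | hc
      · have h5 : L - k ≤ 24 * ((Δ : ℝ) + 2) * S.card := by nlinarith
        have h6 : ((Δ : ℝ) + 2) * (96 * k) ≤ ((Δ : ℝ) + 2) * (24 * S.card) := by nlinarith
        have h7 := le_of_mul_le_mul_left h6 (by positivity)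
        linarith
      · have h5 : (Fintype.card V : ℝ) ≤ 12 * ((Δ : ℝ) + 2) * S.card := by nlinarith
        have h6 : ((Δ : ℝ) + 2) * (72 * k) ≤ ((Δ : ℝ) + 2) * (12 * S.card) := by nlinarith
        have h7 := le_of_mul_le_mul_left h6 (by positivity)
        linarith
    · refine ⟨true, ∅, fun u _ => u, by simp, ⟨by simp, by simp⟩, fun hx => absurd hx hr⟩
  obtain ⟨b, S, lv, hS, hstS, hcS⟩ := key1
  obtain ⟨b', S', lv', hS', hstS', hcS'⟩ := key2
  refine ⟨!b, b', S, S', lv, lv', h.nb, h.labB, h.labC, h.out, h.inn, h.r0, h.r1, ?_, hstS, ?_, hS',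
    hstS', ?_⟩
  · intro u hu
    have := hS u hu
    simp [this.1, this.2]
  · have : hp_ct o + 3 * k ≤ hp_ct i + S.card := by exact_mod_cast hcS
    exact this
  · intro hx
    have h1 : hp_ct o ≤ hp_ct i + 2 * k := hx
    have h2 := hcS' (by exact_mod_cast h1)
    exact_mod_cast h2

theorem hp_log (n K : ℕ) (hn : 3 ≤ n) :
    ((K * (Nat.log 2 n + 1) : ℕ) : ℝ) ≤ 3 * K * Real.log n ∧ 1 ≤ Real.log n := by
  have h3 : (3 : ℝ) ≤ (n : ℝ) := by exact_mod_cast hn
  have hlog : 1 ≤ Real.log n := by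
    rw [Real.le_log_iff_exp_le (by linarith)]
    linarith [Real.exp_one_lt_d9]
  have h1 : ((Nat.log 2 n : ℕ) : ℝ) ≤ 2 * Real.log n := by
    have h2 := Real.natLog_le_logb n 2
    have h4 : Real.logb 2 n ≤ 2 * Real.log n := by
      rw [Real.logb, div_le_iff₀ (Real.log_pos (by norm_num))]
      nlinarith [Real.log_two_gt_d9]
    have h5 : ((Nat.log 2 n : ℕ) : ℝ) ≤ Real.logb 2 n := by exact_mod_cast h2
    linarith
  refine ⟨?_, hlog⟩
  push_cast
  have hK : (0 : ℝ) ≤ (K : ℝ) := Nat.cast_nonneg _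
  nlinarith

/-- The theorem `hostP` from the statement of the module ST. -/
theorem hp_hostP (hst : hp_StStars) (Δ K : ℕ) : ∃ γ : ℝ, 0 < γ ∧ ∀ κ : ℝ, 0 < κ →
    ∃ (κ₀ c : ℝ) (N : ℕ), 0 < κ₀ ∧
    ∀ (V : Type) [Fintype V], N ≤ Fintype.card V → ∀ (D : V → V → Prop) (B₀ C₀ : Finset V),
    NearBip D B₀ C₀ κ₀ → SemiDeg D (c * Real.log (Fintype.card V)) →
    ∃ (D' : V → V → Prop) (B C : Finset V) (o i : V → Bool) (τ ω : Bool) (S S' : Finset V)
      (lv lv' : V → Fin (Δ + 1) → V), (D' = D ∨ D' = rev D) ∧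
      HostP D' Δ B C o i τ ω S S' lv lv' γ κ (K * (Nat.log 2 (Fintype.card V) + 1)) := by
  have hΔ : (0 : ℝ) ≤ (Δ : ℝ) := Nat.cast_nonneg _
  have hK : (0 : ℝ) ≤ (K : ℝ) := Nat.cast_nonneg _
  set γ : ℝ := 1 / (96 * ((Δ : ℝ) + 2)) with hγ
  have hγ0 : 0 < γ := by positivity
  have hγ1 : γ ≤ 1 / 20 := by
    rw [hγ]
    apply one_div_le_one_div_of_le (by norm_num)
    linarith
  refine ⟨γ, hγ0, fun κ hκ => ?_⟩
  obtain ⟨x₀, hx₀⟩ := Filter.eventually_atTop.1 (Real.isLittleO_log_id_atTop.bound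
    (c := 1 / (216 * K * ((Δ : ℝ) + 2) + 1)) (by positivity))
  refine ⟨min (κ / 5) (γ / 4), 300 * ((Δ : ℝ) + 2) * (K + 1), max 3 (Nat.ceil x₀),
    lt_min (by positivity) (by positivity), ?_⟩
  intro V _ hN D B₀ C₀ nb sd
  have hn3 : 3 ≤ Fintype.card V := (le_max_left _ _).trans hN
  obtain ⟨hk, hlog⟩ := hp_log (Fintype.card V) K hn3
  set k := K * (Nat.log 2 (Fintype.card V) + 1) with hkdef
  set l := Real.log (Fintype.card V) with hl
  set κ₀ := min (κ / 5) (γ / 4) with hκ₀
  have hκ₀0 : 0 < κ₀ := lt_min (by positivity) (by positivity)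
  have hκ₀1 : κ₀ ≤ κ / 5 := min_le_left _ _
  have hκ₀2 : κ₀ ≤ γ / 4 := min_le_right _ _
  have hx1 : x₀ ≤ (Fintype.card V : ℝ) := (Nat.le_ceil x₀).trans
    (by exact_mod_cast (le_max_right _ _).trans hN)
  have hx2 := hx₀ _ hx1
  have hcardpos : (0 : ℝ) ≤ (Fintype.card V : ℝ) := Nat.cast_nonneg _
  simp only [id_eq, Real.norm_eq_abs] at hx2
  rw [abs_of_nonneg hcardpos, abs_of_nonneg (by linarith : (0 : ℝ) ≤ Real.log (Fintype.card V)),
    ← hl] at hx2
  have hx3 : 216 * K * ((Δ : ℝ) + 2) * l ≤ (Fintype.card V : ℝ) := by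
    have h1 : (216 * K * ((Δ : ℝ) + 2) + 1) * l ≤ (Fintype.card V : ℝ) := by
      have := mul_le_mul_of_nonneg_left hx2
        (by positivity : (0 : ℝ) ≤ 216 * K * ((Δ : ℝ) + 2) + 1)
      rw [← mul_assoc, mul_one_div_cancel (by positivity), one_mul] at this
      exact this
    linarith
  have hkL : 96 * ((Δ : ℝ) + 2) * k + k + 12 * (Δ + 1) ≤ 300 * ((Δ : ℝ) + 2) * (K + 1) * l := by
    have h1 : ((Δ : ℝ) + 2) * k ≤ ((Δ : ℝ) + 2) * (3 * K * l) :=
      mul_le_mul_of_nonneg_left hk (by positivity)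
    have h2 : 0 ≤ (Δ : ℝ) * K * l := by positivity
    have h3 : 0 ≤ (K : ℝ) * l := by positivity
    have h4 : (Δ : ℝ) ≤ Δ * l := by nlinarith
    nlinarith
  have hkn : 72 * ((Δ : ℝ) + 2) * k ≤ Fintype.card V := by
    have h1 : ((Δ : ℝ) + 2) * k ≤ ((Δ : ℝ) + 2) * (3 * K * l) :=
      mul_le_mul_of_nonneg_left hk (by positivity)
    nlinarith
  have hL0 : 0 ≤ 300 * ((Δ : ℝ) + 2) * (K + 1) * l := by positivity
  obtain ⟨o₀, i₀, hini⟩ := hp_ini hL0 (by linarith) nb sd
  -- make the difference nonnegative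
  have hmid : ∃ (B C : Finset V) (o i : V → Bool), hp_Pre D B C o i γ κ := by
    rcases le_total (hp_ct i₀) (hp_ct o₀) with hle | hle
    · obtain ⟨B', o', i', h'⟩ := hp_pre (κ := κ) hκ₀0.le hγ0 hγ1 (by linarith) (by linarith) hini hle
      exact ⟨B', C₀, o', i', h'⟩
    · have h1 := hp_ct_not o₀
      have h2 := hp_ct_not i₀
      obtain ⟨B', o', i', h'⟩ := hp_pre (κ := κ) hκ₀0.le hγ0 hγ1 (by linarith) (by linarith)
        (hp_ini_swap hini) (by omega)
      exact ⟨B', B₀, o', i', h'⟩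
  obtain ⟨B, C, o, i, hpre⟩ := hmid
  by_cases hoi : Fintype.card V ≤ hp_ct o + hp_ct i
  · obtain ⟨τ, ω, S, S', lv, lv', hh⟩ := hp_fin hst hγ hpre sd hoi (by omega) hkL hkn
    exact ⟨D, B, C, o, i, τ, ω, S, S', lv, lv', Or.inl rfl, hh⟩
  · have h1 := hp_ct_not o
    have h2 := hp_ct_not i
    have sd' : SemiDeg (rev D) (300 * ((Δ : ℝ) + 2) * (K + 1) * l) :=
      ⟨fun v => sd.irr v, fun s u => by rw [hp_adjN_rev]; exact sd.deg _ u⟩
    obtain ⟨τ, ω, S, S', lv, lv', hh⟩ := hp_fin hst hγ (hp_rev hpre) sd' (by omega) (by omega)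
      hkL hkn
    exact ⟨rev D, B, C, _, _, τ, ω, S, S', lv, lv', Or.inr rfl, hh⟩

theorem hostP (Δ K : ℕ) : ∃ γ : ℝ, 0 < γ ∧ ∀ κ : ℝ, 0 < κ → ∃ (κ₀ c : ℝ) (N : ℕ), 0 < κ₀ ∧
    ∀ (V : Type) [Fintype V], N ≤ Fintype.card V → ∀ (D : V → V → Prop) (B₀ C₀ : Finset V),
    NearBip D B₀ C₀ κ₀ → SemiDeg D (c * Real.log (Fintype.card V)) →
    ∃ (D' : V → V → Prop) (B C : Finset V) (o i : V → Bool) (τ ω : Bool) (S S' : Finset V)
      (lv lv' : V → Fin (Δ + 1) → V), (D' = D ∨ D' = rev D) ∧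
      HostP D' Δ B C o i τ ω S S' lv lv' γ κ (K * (Nat.log 2 (Fintype.card V) + 1)) :=
  hp_hostP (fun d y₀ hy V _ D irr s X Y Λ β hβ hY hΛ hin hout hV =>
    stars d y₀ hy D irr s X Y Λ β hβ hY hΛ hin hout hV) Δ K

end

end OT
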